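import Mathlib

set_option autoImplicit false

namespace Pool.Agent.Results.MP_7e4769_co.BipartiteFour

open Finset

/-- real sum zero with a nonzero term has a positive and a negative term -/
lemma pos_neg_of_sum_zero {γ : Type} (S : Finset γ) (f : γ → ℝ) (h0 : ∑ a ∈ S, f a = 0)
    (h1 : ∃ a ∈ S, f a ≠ 0) : (∃ a ∈ S, 0 < f a) ∧ (∃ a ∈ S, f a < 0) := by
  obtain ⟨a, ha, hne⟩ := h1
  constructor
  · by_contra hcon
    push Not at hcon
    have := (Finset.sum_eq_zero_iff_of_nonpos (fun i hi => hcon i hi)).1 h0 a ha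
    exact hne this
  · by_contra hcon
    push Not at hcon
    have := (Finset.sum_eq_zero_iff_of_nonneg (fun i hi => hcon i hi)).1 h0 a ha
    exact hne this

lemma signs {ι α : Type} [DecidableEq α] [DecidableEq ι] [Fintype α] (w : ι → α → ℝ) :
    ∀ (n : ℕ) (Z : Finset α) (I : Finset ι), Z.card = n →
   (∀ i ∈ I, ∀ a, w i a ≠ 0 → a ∈ Z) → (∀ i ∈ I, ∃ a, w i a ≠ 0) →
   (∀ Z' : Finset α, Z' ⊆ Z → Z'.Nonempty →
      (∀ J : Finset ι, J ⊆ I → (∀ i ∈ J, ∀ a, w i a ≠ 0 → a ∈ Z') → J.card < Z'.card)) →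
   ∃ s : α → ℝ, (∀ a, s a ≠ 0) ∧ ∀ i ∈ I, (∃ a, 0 < w i a * s a) ∧ (∃ a, w i a * s a < 0) := by
  classical
  intro n
  induction n using Nat.strong_induction_on with
  | _ n ih =>
  intro Z I hZ hI hne H
  by_cases hZe : Z = ∅
  · refine ⟨fun _ => 1, fun _ => one_ne_zero, fun i hi => ?_⟩
    obtain ⟨a, ha⟩ := hne i hi
    have := hI i hi a ha
    simp [hZe] at this
  · have hZn : Z.Nonempty := Finset.nonempty_iff_ne_empty.2 hZe
    have hlt : I.card < Z.card := H Z (Finset.Subset.refl _) hZn I (Finset.Subset.refl _) hI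
    -- kernel vector
    let L : (Z → ℝ) →ₗ[ℝ] (I → ℝ) := Matrix.mulVecLin (Matrix.of (fun (i : I) (a : Z) => w i a))
    have hker : LinearMap.ker L ≠ ⊥ := by
      apply LinearMap.ker_ne_bot_of_finrank_lt
      simpa using hlt
    obtain ⟨x, hx, hx0⟩ := (Submodule.ne_bot_iff _).1 hker
    have hxL : ∀ i : I, ∑ a : Z, w i a * x a = 0 := by
      intro i
      have := congrFun (LinearMap.mem_ker.1 hx) i
      simpa [L, Matrix.mulVec, dotProduct] using this
    let X : α → ℝ := fun a => if h : a ∈ Z then x ⟨a, h⟩ else 0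
    have hXsum : ∀ i ∈ I, ∑ a, w i a * X a = 0 := by
      intro i hi
      have h1 := hxL ⟨i, hi⟩
      have h2 : ∑ a ∈ Z, w i a * X a = 0 := by
        rw [← h1, ← Finset.sum_coe_sort Z]
        apply Finset.sum_congr rfl
        intro a _
        simp [X]
      rw [← h2]
      symm
      apply Finset.sum_subset (Finset.subset_univ _)
      intro a _ ha
      simp [X, ha]
    obtain ⟨z, hz⟩ : ∃ z : Z, x z ≠ 0 := by
      by_contra hcon
      push Not at hcon
      exact hx0 (funext hcon)
    have hXz : X z ≠ 0 := by simpa [X] using hz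
    let Z1 := Z.filter (fun a => X a = 0)
    let I1 := I.filter (fun i => ∀ a, w i a ≠ 0 → a ∈ Z1)
    have hZ1 : Z1.card < n := by
      rw [← hZ]
      apply Finset.card_lt_card
      refine ⟨Finset.filter_subset _ _, fun hsub => ?_⟩
      have := hsub z.2
      simp [Z1, hXz] at this
    obtain ⟨s1, hs1, hs1'⟩ := ih Z1.card hZ1 Z1 I1 rfl
      (fun i hi => (Finset.mem_filter.1 hi).2)
      (fun i hi => hne i (Finset.mem_filter.1 hi).1)
      (fun Z' hZ' hZ'n J hJ hJ' => H Z' (hZ'.trans (Finset.filter_subset _ _)) hZ'n J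
        (hJ.trans (Finset.filter_subset _ _)) hJ')
    refine ⟨fun a => if X a = 0 then s1 a else X a, ?_, ?_⟩
    · intro a
      by_cases h : X a = 0
      · simp [h, hs1 a]
      · simp [h]
    · intro i hi
      by_cases hi1 : ∀ a, w i a ≠ 0 → a ∈ Z1
      · obtain ⟨⟨a, ha⟩, ⟨b, hb⟩⟩ := hs1' i (Finset.mem_filter.2 ⟨hi, hi1⟩)
        constructor
        · refine ⟨a, ?_⟩
          have : a ∈ Z1 := hi1 a (fun h => by simp [h] at ha)
          have h0 : X a = 0 := (Finset.mem_filter.1 this).2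
          simpa [h0] using ha
        · refine ⟨b, ?_⟩
          have : b ∈ Z1 := hi1 b (fun h => by simp [h] at hb)
          have h0 : X b = 0 := (Finset.mem_filter.1 this).2
          simpa [h0] using hb
      · push Not at hi1
        obtain ⟨a, ha, haZ⟩ := hi1
        have haX : X a ≠ 0 := fun h => haZ (Finset.mem_filter.2 ⟨hI i hi a ha, h⟩)
        obtain ⟨⟨c, _, hc⟩, ⟨d, _, hd⟩⟩ := pos_neg_of_sum_zero Finset.univ (fun a => w i a * X a)
          (hXsum i hi) ⟨a, Finset.mem_univ _, mul_ne_zero ha haX⟩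
        constructor
        · refine ⟨c, ?_⟩
          have h0 : X c ≠ 0 := fun h => by simp [h] at hc
          simpa [h0] using hc
        · refine ⟨d, ?_⟩
          have h0 : X d ≠ 0 := fun h => by simp [h] at hd
          simpa [h0] using hd


/-- A connected 3-regular bipartite incidence structure. -/
structure Conf (α β : Type) [Fintype α] [Fintype β] [DecidableEq α] [DecidableEq β] where
  N : β → Finset α
  M : α → Finset β
  mem : ∀ a b, a ∈ N b ↔ b ∈ M a
  cN : ∀ b, (N b).card = 3
  cM : ∀ a, (M a).card = 3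
  conn : ∀ (Z : Finset α) (Y : Finset β), (∀ b ∈ Y, N b ⊆ Z) → (∀ a ∈ Z, M a ⊆ Y) →
    Z = ∅ ∨ Z = univ

namespace Conf

variable {α β : Type} [Fintype α] [Fintype β] [DecidableEq α] [DecidableEq β]

def swap (C : Conf α β) : Conf β α where
  N := C.M
  M := C.N
  mem := fun b a => (C.mem a b).symm
  cN := C.cM
  cM := C.cN
  conn := by
    intro Y Z h1 h2
    rcases C.conn Z Y h2 h1 with h | h
    · left
      apply Finset.eq_empty_of_forall_notMem
      intro b hb
      have h3 := h2 b hb
      rw [h, Finset.subset_empty] at h3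
      have h4 := C.cN b
      rw [h3] at h4
      simp at h4
    · right
      apply Finset.eq_univ_of_forall
      intro b
      have h4 : (C.N b).Nonempty := by
        rw [← Finset.card_pos, C.cN b]; norm_num
      obtain ⟨a, ha⟩ := h4
      exact h1 a (h ▸ Finset.mem_univ a) ((C.mem a b).1 ha)

/-- double counting of incidences between sets -/
lemma dc (C : Conf α β) (Z : Finset α) (Y : Finset β) :
    ∑ a ∈ Z, (C.M a ∩ Y).card = ∑ b ∈ Y, (C.N b ∩ Z).card := by
  have h1 : ∀ a ∈ Z, (C.M a ∩ Y).card = ∑ b ∈ Y, if b ∈ C.M a then 1 else 0 := by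
    intro a _
    rw [Finset.inter_comm, ← Finset.filter_mem_eq_inter, Finset.card_filter]
  have h2 : ∀ b ∈ Y, (C.N b ∩ Z).card = ∑ a ∈ Z, if b ∈ C.M a then 1 else 0 := by
    intro b _
    rw [Finset.inter_comm, ← Finset.filter_mem_eq_inter, Finset.card_filter]
    apply Finset.sum_congr rfl
    intro a _
    simp only [C.mem a b]
  rw [Finset.sum_congr rfl h1, Finset.sum_congr rfl h2, Finset.sum_comm]

lemma card_eq (C : Conf α β) : Fintype.card α = Fintype.card β := by
  have h := C.dc univ univ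
  simp only [Finset.inter_univ, C.cM, C.cN, Finset.sum_const, smul_eq_mul] at h
  simp only [Finset.card_univ] at h
  omega

/-- rows inside Z -/
def R (C : Conf α β) (Z : Finset α) : Finset β := univ.filter (fun b => C.N b ⊆ Z)

lemma mem_R (C : Conf α β) (Z : Finset α) (b : β) : b ∈ C.R Z ↔ C.N b ⊆ Z := by
  simp [R]

/-- three times the rows inside Z counted by elements of Z -/
lemma dcR (C : Conf α β) (Z : Finset α) :
    ∑ a ∈ Z, (C.M a ∩ C.R Z).card = 3 * (C.R Z).card := by
  rw [C.dc]
  have : ∀ b ∈ C.R Z, (C.N b ∩ Z).card = 3 := by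
    intro b hb
    rw [Finset.inter_eq_left.2 ((C.mem_R Z b).1 hb), C.cN]
  rw [Finset.sum_congr rfl this]
  simp [mul_comm]

lemma inter_le (C : Conf α β) (a : α) (Y : Finset β) : (C.M a ∩ Y).card ≤ 3 := by
  rw [← C.cM a]
  exact Finset.card_le_card Finset.inter_subset_left

lemma R_lt (C : Conf α β) (Z : Finset α) (hn : Z.Nonempty) (hu : Z ≠ univ) :
    (C.R Z).card < Z.card := by
  by_contra hcon
  push Not at hcon
  have h1 := C.dcR Z
  have h2 : ∀ a ∈ Z, (C.M a ∩ C.R Z).card = 3 := by
    intro a ha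
    by_contra hne
    have h3 : ∑ a ∈ Z, (C.M a ∩ C.R Z).card < ∑ a ∈ Z, 3 := by
      apply Finset.sum_lt_sum
      · intro i _; exact C.inter_le i _
      · exact ⟨a, ha, lt_of_le_of_ne (C.inter_le a _) hne⟩
    simp only [Finset.sum_const, smul_eq_mul] at h3
    omega
  rcases C.conn Z (C.R Z) (fun b hb => (C.mem_R Z b).1 hb) (by
    intro a ha
    have h4 := h2 a ha
    rw [← C.cM a] at h4
    have h5 := Finset.eq_of_subset_of_card_le (Finset.inter_subset_left (s₁ := C.M a) (s₂ := C.R Z)) (by omega)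
    rw [← h5]
    exact Finset.inter_subset_right) with h | h
  · exact hn.ne_empty h
  · exact hu h

/-- s is bicoloured on row b -/
def Bic (C : Conf α β) (s : α → ℝ) (b : β) : Prop :=
  (∃ a ∈ C.N b, 0 < s a) ∧ (∃ a ∈ C.N b, s a < 0)

/-- Extension lemma. -/
lemma ext (C : Conf α β) (x : α → ℝ) (hx : ∃ a, x a ≠ 0) (u0 u1 : α)
    (hbad : u0 ≠ u1 → ∀ Z : Finset α, (∀ a ∈ Z, x a = 0) → u0 ∈ Z → u1 ∈ Z →
      (C.R Z).card + 1 ≠ Z.card) :
    ∃ s : α → ℝ, (∀ a, x a ≠ 0 → s a = x a) ∧ (∀ a, s a ≠ 0) ∧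
      (∀ b, (∀ a ∈ C.N b, x a = 0) → C.Bic s b) ∧
      (x u0 = 0 → 0 < s u0) ∧ (x u1 = 0 → 0 < s u1) := by
  classical
  let Z0 : Finset α := univ.filter (fun a => x a = 0)
  have hZ0 : ∀ a, a ∈ Z0 ↔ x a = 0 := by intro a; simp [Z0]
  obtain ⟨a0, ha0⟩ := hx
  have hZu : ∀ Z : Finset α, Z ⊆ Z0 → Z ≠ univ := by
    intro Z hZ h
    exact ha0 ((hZ0 a0).1 (hZ (h ▸ Finset.mem_univ a0)))
  by_cases hcase : x u0 = 0 ∧ x u1 = 0 ∧ u0 ≠ u1
  · obtain ⟨hu0, hu1, hne⟩ := hcase
    -- rows: Option β, none = extra row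
    let w : Option β → α → ℝ := fun i a => match i with
      | none => if a = u0 then 1 else if a = u1 then -1 else 0
      | some b => if a ∈ C.N b then 1 else 0
    have hwn : ∀ a, w none a = if a = u0 then 1 else if a = u1 then -1 else 0 := fun a => rfl
    have hws : ∀ b a, w (some b) a = if a ∈ C.N b then 1 else 0 := fun b a => rfl
    let I : Finset (Option β) := Finset.insertNone (C.R Z0)
    obtain ⟨s, hs0, hs⟩ := signs w Z0.card Z0 I rfl
      (by
        intro i hi a ha
        cases i with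
        | none =>
          rw [hwn] at ha
          by_cases h1 : a = u0
          · rw [h1, hZ0]; exact hu0
          · by_cases h2 : a = u1
            · rw [h2, hZ0]; exact hu1
            · simp [h1, h2] at ha
        | some b =>
          rw [hws] at ha
          have hb : b ∈ C.R Z0 := by simpa [I] using hi
          by_cases h1 : a ∈ C.N b
          · exact (C.mem_R Z0 b).1 hb h1
          · simp [h1] at ha)
      (by
        intro i hi
        cases i with
        | none => exact ⟨u0, by rw [hwn]; simp⟩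
        | some b =>
          have h4 : (C.N b).Nonempty := by
            rw [← Finset.card_pos, C.cN b]; norm_num
          obtain ⟨a, ha⟩ := h4
          exact ⟨a, by rw [hws]; simp [ha]⟩)
      (by
        intro Z' hZ' hn J hJ hJ'
        -- J's real rows are in R Z'
        have hsub : J.eraseNone ⊆ C.R Z' := by
          intro b hb
          rw [Finset.mem_eraseNone] at hb
          rw [C.mem_R]
          intro a ha
          exact hJ' _ hb a (by rw [hws]; simp [ha])
        have hlt := C.R_lt Z' hn (hZu Z' hZ')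
        by_cases hnone : none ∈ J
        · have hu0' : u0 ∈ Z' := hJ' _ hnone u0 (by rw [hwn]; simp)
          have hu1' : u1 ∈ Z' := hJ' _ hnone u1 (by rw [hwn]; simp [hne.symm])
          have hb := hbad hne Z' (fun a ha => (hZ0 a).1 (hZ' ha)) hu0' hu1'
          have hJc : J.card ≤ (J.eraseNone).card + 1 := by
            have : J ⊆ Finset.insertNone J.eraseNone := by
              intro i hi
              cases i with
              | none => simp
              | some b => simp [hi]
            calc J.card ≤ (Finset.insertNone J.eraseNone).card := Finset.card_le_card this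
              _ = _ := Finset.card_insertNone _
          have := Finset.card_le_card hsub
          omega
        · have hJc : J.card ≤ (J.eraseNone).card := by
            have : J ⊆ (J.eraseNone).map ⟨some, Option.some_injective β⟩ := by
              intro i hi
              cases i with
              | none => exact absurd hi hnone
              | some b => simp [hi]
            calc J.card ≤ _ := Finset.card_le_card this
              _ = _ := Finset.card_map _
          have := Finset.card_le_card hsub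
          omega)
    -- choose the sign so that s u0 > 0
    have hextra : 0 < s u0 * s u1 := by
      obtain ⟨⟨c, hc⟩, ⟨d, hd⟩⟩ := hs none (by simp [I])
      rw [hwn] at hc hd
      rcases lt_or_gt_of_ne (hs0 u0) with h0 | h0 <;> rcases lt_or_gt_of_ne (hs0 u1) with h1 | h1
      · exact mul_pos_of_neg_of_neg h0 h1
      · exfalso
        by_cases hcu : c = u0
        · simp [hcu] at hc; linarith
        · by_cases hcu1 : c = u1
          · simp [hcu1, hne.symm] at hc; linarith
          · simp [hcu, hcu1] at hc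
      · exfalso
        by_cases hcu : d = u0
        · simp [hcu] at hd; linarith
        · by_cases hcu1 : d = u1
          · simp [hcu1, hne.symm] at hd; linarith
          · simp [hcu, hcu1] at hd
      · exact mul_pos h0 h1
    refine ⟨fun a => if x a = 0 then s u0 * s a else x a, ?_, ?_, ?_, ?_, ?_⟩
    · intro a ha; simp [ha]
    · intro a
      by_cases h : x a = 0
      · simp [h, hs0]
      · simp [h]
    · intro b hb
      have hbR : b ∈ C.R Z0 := by
        rw [C.mem_R]; intro a ha; rw [hZ0]; exact hb a ha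
      obtain ⟨⟨c, hc⟩, ⟨d, hd⟩⟩ := hs (some b) (by simp [I, hbR])
      rw [hws] at hc hd
      have hcN : c ∈ C.N b := by
        by_contra h; simp [h] at hc
      have hdN : d ∈ C.N b := by
        by_contra h; simp [h] at hd
      simp only [hcN, hdN, if_true, one_mul] at hc hd
      rcases lt_or_gt_of_ne (hs0 u0) with h0 | h0
      · refine ⟨⟨d, hdN, ?_⟩, ⟨c, hcN, ?_⟩⟩
        · simp only [hb d hdN, if_true]; exact mul_pos_of_neg_of_neg h0 hd
        · simp only [hb c hcN, if_true]; exact mul_neg_of_neg_of_pos h0 hc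
      · refine ⟨⟨c, hcN, ?_⟩, ⟨d, hdN, ?_⟩⟩
        · simp only [hb c hcN, if_true]; exact mul_pos h0 hc
        · simp only [hb d hdN, if_true]; exact mul_neg_of_pos_of_neg h0 hd
    · intro h; simp only [h, if_true]; exact mul_self_pos.2 (hs0 u0)
    · intro h; simp only [h, if_true]; exact hextra
  · -- no extra row needed
    let w : β → α → ℝ := fun b a => if a ∈ C.N b then 1 else 0
    have hws : ∀ b a, w b a = if a ∈ C.N b then 1 else 0 := fun b a => rfl
    obtain ⟨s, hs0, hs⟩ := signs w Z0.card Z0 (C.R Z0) rfl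
      (by
        intro b hb a ha
        rw [hws] at ha
        by_cases h1 : a ∈ C.N b
        · exact (C.mem_R Z0 b).1 hb h1
        · simp [h1] at ha)
      (by
        intro b hi
        have h4 : (C.N b).Nonempty := by
          rw [← Finset.card_pos, C.cN b]; norm_num
        obtain ⟨a, ha⟩ := h4
        exact ⟨a, by rw [hws]; simp [ha]⟩)
      (by
        intro Z' hZ' hn J hJ hJ'
        have hsub : J ⊆ C.R Z' := by
          intro b hb
          rw [C.mem_R]
          intro a ha
          exact hJ' _ hb a (by rw [hws]; simp [ha])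
        exact lt_of_le_of_lt (Finset.card_le_card hsub) (C.R_lt Z' hn (hZu Z' hZ')))
    -- element used for flipping
    let u : α := if x u0 = 0 then u0 else u1
    refine ⟨fun a => if x a = 0 then s u * s a else x a, ?_, ?_, ?_, ?_, ?_⟩
    · intro a ha; simp [ha]
    · intro a
      by_cases h : x a = 0
      · simp [h, hs0]
      · simp [h]
    · intro b hb
      have hbR : b ∈ C.R Z0 := by
        rw [C.mem_R]; intro a ha; rw [hZ0]; exact hb a ha
      obtain ⟨⟨c, hc⟩, ⟨d, hd⟩⟩ := hs b hbR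
      rw [hws] at hc hd
      have hcN : c ∈ C.N b := by
        by_contra h; simp [h] at hc
      have hdN : d ∈ C.N b := by
        by_contra h; simp [h] at hd
      simp only [hcN, hdN, if_true, one_mul] at hc hd
      rcases lt_or_gt_of_ne (hs0 u) with h0 | h0
      · refine ⟨⟨d, hdN, ?_⟩, ⟨c, hcN, ?_⟩⟩
        · simp only [hb d hdN, if_true]; exact mul_pos_of_neg_of_neg h0 hd
        · simp only [hb c hcN, if_true]; exact mul_neg_of_neg_of_pos h0 hc
      · refine ⟨⟨c, hcN, ?_⟩, ⟨d, hdN, ?_⟩⟩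
        · simp only [hb c hcN, if_true]; exact mul_pos h0 hc
        · simp only [hb d hdN, if_true]; exact mul_neg_of_pos_of_neg h0 hd
    · intro h
      have : u = u0 := by simp [u, h]
      simp only [h, if_true, this]; exact mul_self_pos.2 (hs0 u0)
    · intro h
      by_cases h0 : x u0 = 0
      · have heq : u0 = u1 := by
          by_contra hne; exact hcase ⟨h0, h, hne⟩
        have : u = u1 := by simp [u, heq]
        simp only [h, if_true, this]; exact mul_self_pos.2 (hs0 u1)
      · have : u = u1 := by simp [u, h0]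
        simp only [h, if_true, this]; exact mul_self_pos.2 (hs0 u1)


lemma bic_congr (C : Conf α β) (x s : α → ℝ) (h : ∀ a, x a ≠ 0 → s a = x a) (b : β)
    (hb : C.Bic x b) : C.Bic s b := by
  obtain ⟨⟨c, hc, hc'⟩, ⟨d, hd, hd'⟩⟩ := hb
  refine ⟨⟨c, hc, ?_⟩, ⟨d, hd, ?_⟩⟩
  · rw [h c (ne_of_gt hc')]; exact hc'
  · rw [h d (ne_of_lt hd')]; exact hd'

/-- 2-colourability of the row hypergraph -/
def Two (C : Conf α β) : Prop := ∃ s : α → ℝ, (∀ a, s a ≠ 0) ∧ ∀ b, C.Bic s b

lemma two_of (C : Conf α β) (x : α → ℝ) (hx : ∃ a, x a ≠ 0)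
    (h : ∀ b, (∃ a ∈ C.N b, x a ≠ 0) → C.Bic x b) : C.Two := by
  obtain ⟨a0, ha0⟩ := hx
  obtain ⟨s, h1, h2, h3, -, -⟩ := C.ext x ⟨a0, ha0⟩ a0 a0 (fun h => absurd rfl h)
  refine ⟨s, h2, fun b => ?_⟩
  by_cases hb : ∃ a ∈ C.N b, x a ≠ 0
  · exact C.bic_congr x s h1 b (h b hb)
  · push Not at hb
    exact h3 b hb

lemma bic_of_sum (C : Conf α β) (x : α → ℝ) (b : β) (h0 : ∑ a ∈ C.N b, x a = 0)
    (h1 : ∃ a ∈ C.N b, x a ≠ 0) : C.Bic x b := pos_neg_of_sum_zero _ _ h0 h1

/-- Case 1: colourability passes to the other side. -/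
lemma two_swap (C : Conf α β) (h : C.Two) (hne : Nonempty α) : C.swap.Two := by
  classical
  obtain ⟨s, hs0, hs⟩ := h
  let P : β → ℝ := fun b => ∑ a ∈ (C.N b).filter (fun a => 0 < s a), s a
  let Q : β → ℝ := fun b => ∑ a ∈ (C.N b).filter (fun a => ¬ 0 < s a), (- s a)
  have hP : ∀ b, 0 < P b := by
    intro b
    obtain ⟨⟨c, hc, hc'⟩, -⟩ := hs b
    apply Finset.sum_pos
    · intro i hi; exact (Finset.mem_filter.1 hi).2
    · exact ⟨c, Finset.mem_filter.2 ⟨hc, hc'⟩⟩
  have hQ : ∀ b, 0 < Q b := by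
    intro b
    obtain ⟨-, ⟨c, hc, hc'⟩⟩ := hs b
    apply Finset.sum_pos
    · intro i hi
      have h1 := (Finset.mem_filter.1 hi).2
      have h2 := hs0 i
      rcases lt_or_gt_of_ne h2 with h3 | h3
      · linarith
      · exact absurd h3 h1
    · exact ⟨c, Finset.mem_filter.2 ⟨hc, by linarith⟩⟩
  let w : β → α → ℝ := fun b a => if a ∈ C.N b then (if 0 < s a then Q b else P b) else 0
  have hws : ∀ b a, w b a = if a ∈ C.N b then (if 0 < s a then Q b else P b) else 0 :=
    fun b a => rfl
  have hwpos : ∀ b a, a ∈ C.N b → 0 < w b a := by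
    intro b a ha
    rw [hws]; simp only [ha, if_true]
    split_ifs
    · exact hQ b
    · exact hP b
  have hwzero : ∀ b a, a ∉ C.N b → w b a = 0 := by
    intro b a ha
    rw [hws]; simp only [ha, if_false]
  have hsum : ∀ b, ∑ a, w b a * s a = 0 := by
    intro b
    have h1 : ∑ a, w b a * s a = ∑ a ∈ C.N b, w b a * s a := by
      symm
      apply Finset.sum_subset (Finset.subset_univ _)
      intro a _ ha
      rw [hwzero b a ha]; ring
    rw [h1, ← Finset.sum_filter_add_sum_filter_not (C.N b) (fun a => 0 < s a)]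
    have h2 : ∑ a ∈ (C.N b).filter (fun a => 0 < s a), w b a * s a = Q b * P b := by
      rw [show Q b * P b = ∑ a ∈ (C.N b).filter (fun a => 0 < s a), Q b * s a from by
        rw [← Finset.mul_sum]]
      apply Finset.sum_congr rfl
      intro a ha
      obtain ⟨ha1, ha2⟩ := Finset.mem_filter.1 ha
      rw [hws]; simp only [ha1, ha2, if_true]
    have h3 : ∑ a ∈ (C.N b).filter (fun a => ¬ 0 < s a), w b a * s a = - (P b * Q b) := by
      rw [show - (P b * Q b) = ∑ a ∈ (C.N b).filter (fun a => ¬ 0 < s a), P b * s a from by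
        rw [← Finset.mul_sum]; simp only [Q, Finset.sum_neg_distrib]; ring]
      apply Finset.sum_congr rfl
      intro a ha
      obtain ⟨ha1, ha2⟩ := Finset.mem_filter.1 ha
      rw [hws]; simp only [ha1, ha2, if_true, if_false]
    rw [h2, h3]; ring
  obtain ⟨e⟩ : Nonempty (α ≃ β) := Fintype.card_eq.1 C.card_eq
  let W : Matrix α α ℝ := Matrix.of (fun i a => w (e i) a)
  have hdet : W.det = 0 := by
    rw [← Matrix.exists_mulVec_eq_zero_iff]
    refine ⟨s, ?_, ?_⟩
    · intro h
      exact hs0 hne.some (congrFun h _)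
    · funext i
      simpa [W, Matrix.mulVec, dotProduct] using hsum (e i)
  obtain ⟨v, hv0, hv⟩ := Matrix.exists_vecMul_eq_zero_iff.2 hdet
  let y : β → ℝ := fun b => v (e.symm b)
  have hy0 : ∃ b, y b ≠ 0 := by
    by_contra hcon
    push Not at hcon
    apply hv0
    funext i
    have := hcon (e i)
    simpa [y] using this
  have hysum : ∀ a, ∑ b, w b a * y b = 0 := by
    intro a
    have h1 := congrFun hv a
    simp only [Matrix.vecMul, dotProduct, W, Matrix.of_apply, Pi.zero_apply] at h1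
    rw [← Equiv.sum_comp e]
    rw [← h1]
    apply Finset.sum_congr rfl
    intro i _
    simp [y, mul_comm]
  apply C.swap.two_of y hy0
  intro a ha
  obtain ⟨b, hb, hyb⟩ := ha
  have hb' : b ∈ C.M a := hb
  have h1 : ∑ b ∈ C.M a, w b a * y b = 0 := by
    rw [← hysum a]
    apply Finset.sum_subset (Finset.subset_univ _)
    intro b _ hb
    rw [hwzero b a (fun h => hb ((C.mem a b).1 h))]; ring
  obtain ⟨⟨c, hc, hc'⟩, ⟨d, hd, hd'⟩⟩ := pos_neg_of_sum_zero (C.M a) (fun b => w b a * y b) h1
    ⟨b, hb', mul_ne_zero (ne_of_gt (hwpos b a ((C.mem a b).2 hb'))) hyb⟩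
  have hcw := hwpos c a ((C.mem a c).2 hc)
  have hdw := hwpos d a ((C.mem a d).2 hd)
  refine ⟨⟨c, hc, ?_⟩, ⟨d, hd, ?_⟩⟩
  · exact (pos_iff_pos_of_mul_pos hc').1 hcw
  · by_contra hcon
    push Not at hcon
    have := mul_nonneg hdw.le hcon
    linarith

/-- the row-sum map -/
noncomputable def L (C : Conf α β) : (α → ℝ) →ₗ[ℝ] (β → ℝ) where
  toFun x := fun b => ∑ a ∈ C.N b, x a
  map_add' x y := by funext b; simp [Finset.sum_add_distrib]
  map_smul' r x := by funext b; simp [Finset.mul_sum]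

lemma L_apply (C : Conf α β) (x : α → ℝ) (b : β) : C.L x b = ∑ a ∈ C.N b, x a := rfl

lemma L_surj (C : Conf α β) (hnc : ¬ C.Two) : Function.Surjective C.L := by
  have hinj : Function.Injective C.L := by
    rw [← LinearMap.ker_eq_bot, Submodule.eq_bot_iff]
    intro x hx
    by_contra hx0
    apply hnc
    have hx1 : ∃ a, x a ≠ 0 := by
      by_contra hcon
      push Not at hcon
      exact hx0 (funext hcon)
    apply C.two_of x hx1
    intro b hb
    exact C.bic_of_sum x b (by rw [← C.L_apply, LinearMap.mem_ker.1 hx]; rfl) hb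
  exact (LinearMap.injective_iff_surjective_of_finrank_eq_finrank
    (by simp [C.card_eq])).1 hinj

/-- the key contradiction -/
lemma dag (C : Conf α β) (hnc : ¬ C.Two) (a0 : α) (x : α → ℝ)
    (hx : ∀ b, b ∉ C.M a0 → ∑ a ∈ C.N b, x a = 0) (u0 u1 : α) (hu0 : u0 ≠ a0) (hu1 : u1 ≠ a0)
    (hbad : u0 ≠ u1 → ∀ Z : Finset α, a0 ∉ Z → u0 ∈ Z → u1 ∈ Z → (C.R Z).card + 1 ≠ Z.card)
    (h : ∀ b ∈ C.M a0, ∃ c ∈ C.N b, c ≠ a0 ∧ (0 < x c ∨ (x c = 0 ∧ (c = u0 ∨ c = u1)))) :
    False := by
  apply hnc
  let x' : α → ℝ := Function.update x a0 (-1)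
  have hx'0 : x' a0 = -1 := by simp [x']
  have hx' : ∀ a, a ≠ a0 → x' a = x a := by intro a ha; simp [x', ha]
  obtain ⟨s, h1, h2, h3, h4, h5⟩ := C.ext x' ⟨a0, by rw [hx'0]; norm_num⟩ u0 u1 (by
    intro hne Z hZ hz0 hz1
    apply hbad hne Z ?_ hz0 hz1
    intro ha0
    have := hZ a0 ha0
    rw [hx'0] at this
    norm_num at this)
  refine ⟨s, h2, fun b => ?_⟩
  by_cases hb : b ∈ C.M a0
  · obtain ⟨c, hc, hca, hc'⟩ := h b hb
    refine ⟨⟨c, hc, ?_⟩, ⟨a0, (C.mem a0 b).2 hb, ?_⟩⟩
    · rcases hc' with hc' | ⟨hc0, hc' | hc'⟩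
      · rw [h1 c (by rw [hx' c hca]; exact ne_of_gt hc'), hx' c hca]; exact hc'
      · rw [hc']; apply h4; rw [hx' u0 hu0, ← hc', hc0]
      · rw [hc']; apply h5; rw [hx' u1 hu1, ← hc', hc0]
    · rw [h1 a0 (by rw [hx'0]; norm_num), hx'0]; norm_num
  · have hna : a0 ∉ C.N b := fun h => hb ((C.mem a0 b).1 h)
    by_cases hz : ∃ a ∈ C.N b, x' a ≠ 0
    · apply C.bic_congr x' s h1 b
      apply C.bic_of_sum x' b ?_ hz
      rw [← hx b hb]
      apply Finset.sum_congr rfl
      intro a ha
      exact hx' a (fun h => hna (h ▸ ha))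
    · push Not at hz
      exact h3 b hz

/-- positivity of the diagonal entries of the inverse -/
lemma inv_pos (C : Conf α β) (hnc : ¬ C.Two) (a0 : α) (b0 : β) (hb0 : b0 ∈ C.M a0) (x : α → ℝ)
    (hx : C.L x = Pi.single b0 1) : 0 < x a0 := by
  by_contra hcon
  push Not at hcon
  apply hnc
  have hsum0 : ∑ a ∈ C.N b0, x a = 1 := by
    rw [← C.L_apply, hx]; simp
  have hsum : ∀ b, b ≠ b0 → ∑ a ∈ C.N b, x a = 0 := by
    intro b hb
    rw [← C.L_apply, hx]; simp [hb]
  have hpos : ∃ c ∈ C.N b0, 0 < x c := by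
    by_contra hcon
    push Not at hcon
    have := Finset.sum_nonpos hcon
    linarith
  obtain ⟨c, hc, hc'⟩ := hpos
  have ha0 : a0 ∈ C.N b0 := (C.mem a0 b0).2 hb0
  rcases lt_or_eq_of_le hcon with hlt | heq
  · apply C.two_of x ⟨c, ne_of_gt hc'⟩
    intro b hb
    by_cases hbb : b = b0
    · subst hbb
      exact ⟨⟨c, hc, hc'⟩, ⟨a0, ha0, hlt⟩⟩
    · exact C.bic_of_sum x b (hsum b hbb) hb
  · obtain ⟨s, h1, h2, h3, h4, h5⟩ := C.ext (-x) ⟨c, by simp; exact ne_of_gt hc'⟩ a0 a0
      (fun h => absurd rfl h)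
    refine ⟨s, h2, fun b => ?_⟩
    by_cases hbb : b = b0
    · subst hbb
      refine ⟨⟨a0, ha0, h4 (by simp [heq])⟩, ⟨c, hc, ?_⟩⟩
      rw [h1 c (by simp; exact ne_of_gt hc')]
      simpa using hc'
    · by_cases hz : ∃ a ∈ C.N b, (-x) a ≠ 0
      · apply C.bic_congr (-x) s h1 b
        apply C.bic_of_sum (-x) b ?_ hz
        simp [hsum b hbb]
      · push Not at hz
        exact h3 b hz


/-- Good vertices admit a colouring of the rest with all three rows at the vertex monochromatic. -/
lemma agood (C : Conf α β) (hnc : ¬ C.Two) (a0 : α) (b0 b1 b2 : β) (h01 : b0 ≠ b1) (h02 : b0 ≠ b2)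
    (h12 : b1 ≠ b2) (hM : C.M a0 = {b0, b1, b2})
    (hbad : ∀ Z : Finset α, a0 ∉ Z → ∀ u0 ∈ C.N b0, ∀ u1 ∈ C.N b1, u0 ≠ u1 → u0 ∈ Z → u1 ∈ Z →
      (C.R Z).card + 1 ≠ Z.card) :
    ∃ φ : α → ℝ, (∀ a, φ a ≠ 0) ∧ (∀ b, b ∉ C.M a0 → C.Bic φ b) ∧
      (∀ b ∈ C.M a0, (∀ a ∈ C.N b, a ≠ a0 → 0 < φ a) ∨ (∀ a ∈ C.N b, a ≠ a0 → φ a < 0)) := by
  classical
  have hm0 : b0 ∈ C.M a0 := by rw [hM]; simp
  have hm1 : b1 ∈ C.M a0 := by rw [hM]; simp
  have hm2 : b2 ∈ C.M a0 := by rw [hM]; simp
  have hN : ∀ b ∈ C.M a0, ∃ u v, u ≠ a0 ∧ v ≠ a0 ∧ u ∈ C.N b ∧ v ∈ C.N b ∧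
      (∀ c ∈ C.N b, c ≠ a0 → c = u ∨ c = v) ∧
      (∀ x : α → ℝ, ∑ a ∈ C.N b, x a = x a0 + (x u + x v)) := by
    intro b hb
    have hab : a0 ∈ C.N b := (C.mem a0 b).2 hb
    have hc : ((C.N b).erase a0).card = 2 := by
      rw [Finset.card_erase_of_mem hab, C.cN]
    obtain ⟨u, v, huv, he⟩ := Finset.card_eq_two.1 hc
    have hu : u ∈ (C.N b).erase a0 := by rw [he]; simp
    have hv : v ∈ (C.N b).erase a0 := by rw [he]; simp
    refine ⟨u, v, (Finset.mem_erase.1 hu).1, (Finset.mem_erase.1 hv).1, (Finset.mem_erase.1 hu).2,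
      (Finset.mem_erase.1 hv).2, ?_, ?_⟩
    · intro c hc hca
      have : c ∈ (C.N b).erase a0 := Finset.mem_erase.2 ⟨hca, hc⟩
      rw [he] at this
      simpa using this
    · intro x
      rw [← Finset.add_sum_erase _ _ hab, he, Finset.sum_pair huv]
  obtain ⟨u0, v0, hu0, hv0, hu0', hv0', hr0, hs0⟩ := hN b0 hm0
  obtain ⟨u1, v1, hu1, hv1, hu1', hv1', hr1, hs1⟩ := hN b1 hm1
  obtain ⟨u2, v2, hu2, hv2, hu2', hv2', hr2, hs2⟩ := hN b2 hm2
  obtain ⟨x0, hx0⟩ := C.L_surj hnc (Pi.single b0 1)
  obtain ⟨x1, hx1⟩ := C.L_surj hnc (Pi.single b1 1)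
  obtain ⟨x2, hx2⟩ := C.L_surj hnc (Pi.single b2 1)
  have hp0 := C.inv_pos hnc a0 b0 hm0 x0 hx0
  have hp1 := C.inv_pos hnc a0 b1 hm1 x1 hx1
  have hp2 := C.inv_pos hnc a0 b2 hm2 x2 hx2
  have e0 : ∀ b, ∑ a ∈ C.N b, x0 a = if b = b0 then 1 else 0 := by
    intro b; rw [← C.L_apply, hx0, Pi.single_apply]
  have e1 : ∀ b, ∑ a ∈ C.N b, x1 a = if b = b1 then 1 else 0 := by
    intro b; rw [← C.L_apply, hx1, Pi.single_apply]
  have e2 : ∀ b, ∑ a ∈ C.N b, x2 a = if b = b2 then 1 else 0 := by
    intro b; rw [← C.L_apply, hx2, Pi.single_apply]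
  let y : ℝ → α → ℝ := fun s a =>
    x2 a - (1 - s) * (x2 a0 / x1 a0) * x1 a - s * (x2 a0 / x0 a0) * x0 a
  have hy : ∀ s a, y s a = x2 a - (1 - s) * (x2 a0 / x1 a0) * x1 a - s * (x2 a0 / x0 a0) * x0 a :=
    fun s a => rfl
  have hya0 : ∀ s, y s a0 = 0 := by
    intro s; rw [hy]; field_simp; ring
  have hysum : ∀ s b, ∑ a ∈ C.N b, y s a = (if b = b2 then 1 else 0)
      - (1 - s) * (x2 a0 / x1 a0) * (if b = b1 then 1 else 0)
      - s * (x2 a0 / x0 a0) * (if b = b0 then 1 else 0) := by
    intro s b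
    simp only [hy, Finset.sum_sub_distrib, ← Finset.mul_sum, e0, e1, e2]
  have hyother : ∀ s b, b ∉ C.M a0 → ∑ a ∈ C.N b, y s a = 0 := by
    intro s b hb
    rw [hM] at hb
    simp only [Finset.mem_insert, Finset.mem_singleton, not_or] at hb
    rw [hysum]; simp [hb.1, hb.2.1, hb.2.2]
  have hy2 : ∀ s, y s u2 + y s v2 = 1 := by
    intro s
    have := hs2 (y s)
    rw [hysum, hya0] at this
    simp [h02.symm, h12.symm] at this
    linarith
  have hy1 : ∀ s, y s u1 + y s v1 = - (1 - s) * (x2 a0 / x1 a0) := by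
    intro s
    have := hs1 (y s)
    rw [hysum, hya0] at this
    simp [h01.symm, h12] at this
    linarith
  have hy0 : ∀ s, y s u0 + y s v0 = - s * (x2 a0 / x0 a0) := by
    intro s
    have := hs0 (y s)
    rw [hysum, hya0] at this
    simp [h01, h02] at this
    linarith
  have hpos2 : ∀ s, ∃ c ∈ C.N b2, c ≠ a0 ∧ 0 < y s c := by
    intro s
    by_contra hcon
    push Not at hcon
    have h1 := hcon u2 hu2' hu2
    have h2 := hcon v2 hv2' hv2
    have := hy2 s
    linarith
  have key : ∀ s, ∀ c0 ∈ C.N b0, c0 ≠ a0 → ∀ c1 ∈ C.N b1, c1 ≠ a0 →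
      0 ≤ y s c0 → 0 ≤ y s c1 → False := by
    intro s c0 hc0 hc0a c1 hc1 hc1a h0 h1
    apply C.dag hnc a0 (y s) (hyother s) c0 c1 hc0a hc1a
      (fun hne Z hZ hz0 hz1 => hbad Z hZ c0 hc0 c1 hc1 hne hz0 hz1)
    intro b hb
    rw [hM] at hb
    simp only [Finset.mem_insert, Finset.mem_singleton] at hb
    rcases hb with rfl | rfl | rfl
    · refine ⟨c0, hc0, hc0a, ?_⟩
      rcases lt_or_eq_of_le h0 with h | h
      · left; exact h
      · right; exact ⟨h.symm, Or.inl rfl⟩
    · refine ⟨c1, hc1, hc1a, ?_⟩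
      rcases lt_or_eq_of_le h1 with h | h
      · left; exact h
      · right; exact ⟨h.symm, Or.inr rfl⟩
    · obtain ⟨c, hc, hca, hc'⟩ := hpos2 s
      exact ⟨c, hc, hca, Or.inl hc'⟩
  let F0 : ℝ → ℝ := fun s => max (y s u0) (y s v0)
  let F1 : ℝ → ℝ := fun s => max (y s u1) (y s v1)
  have hcont : ∀ a, Continuous (fun s => y s a) := by
    intro a
    simp only [hy]
    fun_prop
  have hF0c : Continuous F0 := (hcont u0).max (hcont v0)
  have hF1c : Continuous F1 := (hcont u1).max (hcont v1)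
  have hF : ∀ s, ¬ (0 ≤ F0 s ∧ 0 ≤ F1 s) := by
    rintro s ⟨h0, h1⟩
    rcases le_max_iff.1 h0 with h0 | h0 <;> rcases le_max_iff.1 h1 with h1 | h1
    · exact key s u0 hu0' hu0 u1 hu1' hu1 h0 h1
    · exact key s u0 hu0' hu0 v1 hv1' hv1 h0 h1
    · exact key s v0 hv0' hv0 u1 hu1' hu1 h0 h1
    · exact key s v0 hv0' hv0 v1 hv1' hv1 h0 h1
  have hq0 : 0 < x2 a0 / x0 a0 := div_pos hp2 hp0
  have hq1 : 0 < x2 a0 / x1 a0 := div_pos hp2 hp1
  have hA : 0 ≤ F0 (-1) := by
    by_contra hcon
    push Not at hcon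
    have h1 : y (-1) u0 ≤ F0 (-1) := le_max_left _ _
    have h2 : y (-1) v0 ≤ F0 (-1) := le_max_right _ _
    have := hy0 (-1)
    nlinarith
  have hB : 0 ≤ F1 2 := by
    by_contra hcon
    push Not at hcon
    have h1 : y 2 u1 ≤ F1 2 := le_max_left _ _
    have h2 : y 2 v1 ≤ F1 2 := le_max_right _ _
    have := hy1 2
    nlinarith
  have hA' : F1 (-1) < 0 := by
    by_contra hcon; push Not at hcon; exact hF _ ⟨hA, hcon⟩
  have hB' : F0 2 < 0 := by
    by_contra hcon; push Not at hcon; exact hF _ ⟨hcon, hB⟩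
  obtain ⟨s, -, hs⟩ : (0 : ℝ) ∈ (fun s => F0 s - F1 s) '' Set.Icc (-1) 2 := by
    apply intermediate_value_Icc' (by norm_num) ((hF0c.sub hF1c).continuousOn)
    constructor
    · show F0 2 - F1 2 ≤ 0
      linarith
    · show 0 ≤ F0 (-1) - F1 (-1)
      linarith
  have hs' : F0 s = F1 s := by simp only at hs; linarith
  have hneg0 : F0 s < 0 := by
    by_contra hcon; push Not at hcon; exact hF s ⟨hcon, hs' ▸ hcon⟩
  have hneg1 : F1 s < 0 := hs' ▸ hneg0
  have hn0 : ∀ c ∈ C.N b0, c ≠ a0 → y s c < 0 := by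
    intro c hc hca
    rcases hr0 c hc hca with rfl | rfl
    · exact lt_of_le_of_lt (le_max_left _ _) hneg0
    · exact lt_of_le_of_lt (le_max_right _ _) hneg0
  have hn1 : ∀ c ∈ C.N b1, c ≠ a0 → y s c < 0 := by
    intro c hc hca
    rcases hr1 c hc hca with rfl | rfl
    · exact lt_of_le_of_lt (le_max_left _ _) hneg1
    · exact lt_of_le_of_lt (le_max_right _ _) hneg1
  have hp2' : ∀ c ∈ C.N b2, c ≠ a0 → 0 < y s c := by
    intro c hc hca
    by_contra hcon
    push Not at hcon
    apply C.dag hnc a0 (-(y s)) (by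
      intro b hb
      simp only [Pi.neg_apply, Finset.sum_neg_distrib, hyother s b hb, neg_zero]) c c hca hca
      (fun h => absurd rfl h)
    intro b hb
    rw [hM] at hb
    simp only [Finset.mem_insert, Finset.mem_singleton] at hb
    rcases hb with rfl | rfl | rfl
    · exact ⟨u0, hu0', hu0, Or.inl (by simp only [Pi.neg_apply]; have := hn0 u0 hu0' hu0; linarith)⟩
    · exact ⟨u1, hu1', hu1, Or.inl (by simp only [Pi.neg_apply]; have := hn1 u1 hu1' hu1; linarith)⟩
    · refine ⟨c, hc, hca, ?_⟩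
      rcases lt_or_eq_of_le hcon with h | h
      · left; simp only [Pi.neg_apply]; linarith
      · right; exact ⟨by simp [h], Or.inl rfl⟩
  obtain ⟨φ, g1, g2, g3, -, -⟩ := C.ext (y s) ⟨u0, ne_of_lt (hn0 u0 hu0' hu0)⟩ u0 u0
    (fun h => absurd rfl h)
  refine ⟨φ, g2, ?_, ?_⟩
  · intro b hb
    by_cases hz : ∃ a ∈ C.N b, y s a ≠ 0
    · exact C.bic_congr (y s) φ g1 b (C.bic_of_sum (y s) b (hyother s b hb) hz)
    · push Not at hz
      exact g3 b hz
  · intro b hb
    rw [hM] at hb
    simp only [Finset.mem_insert, Finset.mem_singleton] at hb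
    rcases hb with rfl | rfl | rfl
    · right
      intro a ha haa
      have := hn0 a ha haa
      rw [g1 a (ne_of_lt this)]; exact this
    · right
      intro a ha haa
      have := hn1 a ha haa
      rw [g1 a (ne_of_lt this)]; exact this
    · left
      intro a ha haa
      have := hp2' a ha haa
      rw [g1 a (ne_of_gt this)]; exact this


/-- `a0` is good: some pair of rows at `a0` meets no tight set avoiding `a0`. -/
def Good (C : Conf α β) (a0 : α) : Prop :=
  ∃ b0 b1 b2 : β, b0 ≠ b1 ∧ b0 ≠ b2 ∧ b1 ≠ b2 ∧ C.M a0 = {b0, b1, b2} ∧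
    ∀ Z : Finset α, a0 ∉ Z → ∀ u0 ∈ C.N b0, ∀ u1 ∈ C.N b1, u0 ≠ u1 → u0 ∈ Z → u1 ∈ Z →
      (C.R Z).card + 1 ≠ Z.card

/-- nontrivial tight sets -/
def Tight (C : Conf α β) (Z : Finset α) : Prop := 2 ≤ Z.card ∧ (C.R Z).card + 1 = Z.card

lemma R_inter (C : Conf α β) (Z Z' : Finset α) : C.R (Z ∩ Z') = C.R Z ∩ C.R Z' := by
  ext b
  simp only [C.mem_R, Finset.mem_inter, Finset.subset_inter_iff]

lemma R_mono (C : Conf α β) {Z Z' : Finset α} (h : Z ⊆ Z') : C.R Z ⊆ C.R Z' := by
  intro b hb
  rw [C.mem_R] at *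
  exact hb.trans h

/-- uncrossing -/
lemma uncross (C : Conf α β) (Z Z' : Finset α) (hZ : (C.R Z).card + 1 = Z.card)
    (hZ' : (C.R Z').card + 1 = Z'.card) (hn : (Z ∩ Z').Nonempty) (hu : Z ∪ Z' ≠ univ)
    (hu' : Z ∩ Z' ≠ univ) :
    (C.R (Z ∩ Z')).card + 1 = (Z ∩ Z').card := by
  have h1 := C.R_lt (Z ∩ Z') hn hu'
  have h2 := C.R_lt (Z ∪ Z') (hn.mono (Finset.inter_subset_left.trans Finset.subset_union_left)) hu
  have h3 := Finset.card_union_add_card_inter Z Z'
  have h4 := Finset.card_union_add_card_inter (C.R Z) (C.R Z')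
  rw [← C.R_inter] at h4
  have h5 : (C.R Z ∪ C.R Z').card ≤ (C.R (Z ∪ Z')).card := by
    apply Finset.card_le_card
    exact Finset.union_subset (C.R_mono Finset.subset_union_left) (C.R_mono Finset.subset_union_right)
  omega

/-- complement of a tight set is tight for the other side -/
lemma compl_tight (C : Conf α β) (Z : Finset α) (hZ : (C.R Z).card + 1 = Z.card)
    (h2 : 2 ≤ Z.card) :
    (C.swap.R (univ \ C.R Z)).card + 1 = (univ \ C.R Z).card ∧
      C.swap.R (univ \ C.R Z) = univ \ Z := by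
  have hcard := C.card_eq
  have hRne : (C.R Z).Nonempty := by rw [← Finset.card_pos]; omega
  have hsub : univ \ Z ⊆ C.swap.R (univ \ C.R Z) := by
    intro a ha
    rw [C.swap.mem_R]
    intro b hb
    have hb' : a ∈ C.N b := (C.mem a b).2 hb
    simp only [Finset.mem_sdiff, Finset.mem_univ, true_and] at ha ⊢
    intro hbR
    exact ha ((C.mem_R Z b).1 hbR hb')
  have hZu : Z ≠ univ := by
    intro h
    have h1 : C.R Z = univ := by
      apply Finset.eq_univ_of_forall
      intro b; rw [C.mem_R, h]; exact Finset.subset_univ _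
    rw [h1, h, Finset.card_univ, Finset.card_univ] at hZ
    omega
  have hY : (univ \ C.R Z).card + (C.R Z).card = Fintype.card β := by
    rw [Finset.card_sdiff_add_card_eq_card (Finset.subset_univ _), Finset.card_univ]
  have hZc : (univ \ Z).card + Z.card = Fintype.card α := by
    rw [Finset.card_sdiff_add_card_eq_card (Finset.subset_univ _), Finset.card_univ]
  have hZc' : Z.card < Fintype.card α := by
    rw [← Finset.card_univ]
    exact Finset.card_lt_card (Finset.ssubset_univ_iff.2 hZu)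
  have hYn : (univ \ C.R Z).Nonempty := by rw [← Finset.card_pos]; omega
  have hYu : (univ \ C.R Z) ≠ univ := by
    intro h
    rw [h, Finset.card_univ] at hY
    have := Finset.card_pos.2 hRne
    omega
  have h1 := C.swap.R_lt _ hYn hYu
  have h3 := Finset.card_le_card hsub
  have h4 : (C.swap.R (univ \ C.R Z)).card + 1 = (univ \ C.R Z).card := by omega
  refine ⟨h4, ?_⟩
  symm
  apply Finset.eq_of_subset_of_card_le hsub
  omega

/-- If `Z` is a nontrivial tight set of minimum size among tight sets of both types, there is a good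
edge. -/
lemma good_edge_of_min (C : Conf α β) (hnc : ¬ C.Two) (Z : Finset α) (hZ : C.Tight Z)
    (hmin : ∀ Z', C.Tight Z' → Z.card ≤ Z'.card) (hmin' : ∀ Y, C.swap.Tight Y → Z.card ≤ Y.card) :
    ∃ a0 b0, b0 ∈ C.M a0 ∧ C.Good a0 ∧ C.swap.Good b0 := by
  classical
  obtain ⟨hZ2, hZt⟩ := hZ
  -- Z has at least four elements
  have hZ4 : 4 ≤ Z.card := by
    by_contra hcon
    push Not at hcon
    have h23 : Z.card = 2 ∨ Z.card = 3 := by omega
    rcases h23 with h | h
    · have hR : (C.R Z).card = 1 := by omega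
      obtain ⟨b, hb⟩ := Finset.card_pos.1 (by omega : 0 < (C.R Z).card)
      have h1 := Finset.card_le_card ((C.mem_R Z b).1 hb)
      rw [C.cN] at h1
      omega
    · have hR : (C.R Z).card = 2 := by omega
      obtain ⟨b, b', hbb, he⟩ := Finset.card_eq_two.1 hR
      have hb : b ∈ C.R Z := by rw [he]; simp
      have hb' : b' ∈ C.R Z := by rw [he]; simp
      have h1 : C.N b = Z := Finset.eq_of_subset_of_card_le ((C.mem_R Z b).1 hb) (by rw [C.cN]; omega)
      have h2 : C.N b' = Z := Finset.eq_of_subset_of_card_le ((C.mem_R Z b').1 hb')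
        (by rw [C.cN]; omega)
      obtain ⟨x, hx⟩ := C.L_surj hnc (Pi.single b 1)
      have h3 : C.L x b = C.L x b' := by rw [C.L_apply, C.L_apply, h1, h2]
      rw [hx] at h3
      simp [hbb.symm] at h3
  have hZu : Z ≠ univ := by
    intro h
    have h1 : C.R Z = univ := by
      apply Finset.eq_univ_of_forall
      intro b; rw [C.mem_R, h]; exact Finset.subset_univ _
    have := C.card_eq
    rw [h1, h, Finset.card_univ, Finset.card_univ] at hZt
    omega
  -- a vertex of Z with all its neighbours in R Z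
  obtain ⟨a0, ha0, ha0R⟩ : ∃ a0 ∈ Z, C.M a0 ⊆ C.R Z := by
    by_contra hcon
    push Not at hcon
    have h1 := C.dcR Z
    have h2 : ∀ a ∈ Z, (C.M a ∩ C.R Z).card ≤ 2 := by
      intro a ha
      by_contra h3
      push Not at h3
      apply hcon a ha
      have h4 := Finset.eq_of_subset_of_card_le
        (Finset.inter_subset_left (s₁ := C.M a) (s₂ := C.R Z)) (by rw [C.cM]; omega)
      rw [← h4]
      exact Finset.inter_subset_right
    have h3 := Finset.sum_le_sum h2
    simp only [Finset.sum_const, smul_eq_mul] at h3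
    omega
  obtain ⟨b0, b1, b2, h01, h02, h12, hM⟩ := Finset.card_eq_three.1 (C.cM a0)
  have hb0 : b0 ∈ C.M a0 := by rw [hM]; simp
  have hb1 : b1 ∈ C.M a0 := by rw [hM]; simp
  have hb0R : C.N b0 ⊆ Z := (C.mem_R Z b0).1 (ha0R hb0)
  have hb1R : C.N b1 ⊆ Z := (C.mem_R Z b1).1 (ha0R hb1)
  refine ⟨a0, b0, hb0, ⟨b0, b1, b2, h01, h02, h12, hM, ?_⟩, ?_⟩
  · -- goodness of a0
    intro Z' hZ' u0 hu0 u1 hu1 hne hu0' hu1' hbad
    have hi0 : u0 ∈ Z ∩ Z' := Finset.mem_inter.2 ⟨hb0R hu0, hu0'⟩
    have hi1 : u1 ∈ Z ∩ Z' := Finset.mem_inter.2 ⟨hb1R hu1, hu1'⟩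
    have hi2 : 2 ≤ (Z ∩ Z').card := by
      have : ({u0, u1} : Finset α) ⊆ Z ∩ Z' := by
        intro c hc
        simp only [Finset.mem_insert, Finset.mem_singleton] at hc
        rcases hc with rfl | rfl
        · exact hi0
        · exact hi1
      have h1 := Finset.card_le_card this
      rw [Finset.card_pair hne] at h1
      exact h1
    have hlt : (Z ∩ Z').card < Z.card := by
      apply Finset.card_lt_card
      refine ⟨Finset.inter_subset_left, fun h => ?_⟩
      exact hZ' (Finset.mem_inter.1 (h ha0)).2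
    by_cases hu : Z ∪ Z' = univ
    · -- complement of Z'
      have h2' : 2 ≤ Z'.card := hi2.trans (Finset.card_le_card Finset.inter_subset_right)
      obtain ⟨h1, h2⟩ := C.compl_tight Z' hbad h2'
      have h3 : (univ \ Z').card + (Z ∩ Z').card = Z.card := by
        have : univ \ Z' = Z \ Z' := by
          ext c
          simp only [Finset.mem_sdiff, Finset.mem_univ, true_and]
          constructor
          · intro hc
            have : c ∈ Z ∪ Z' := hu ▸ Finset.mem_univ c
            exact ⟨(Finset.mem_union.1 this).resolve_right hc, hc⟩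
          · exact fun hc => hc.2
        rw [this, Finset.card_sdiff_add_card_inter]
      have h4 : 0 < (univ \ Z').card := Finset.card_pos.2 ⟨a0, by simp [hZ']⟩
      rw [h2] at h1
      have h5 := hmin' (univ \ C.R Z') ⟨by omega, by rw [h2]; exact h1⟩
      omega
    · have hiu : Z ∩ Z' ≠ univ := by
        intro h
        rw [h, Finset.card_univ] at hlt
        exact absurd (Finset.card_le_univ Z) (by omega)
      have := C.uncross Z Z' hZt hbad ⟨u0, hi0⟩ hu hiu
      have := hmin _ ⟨hi2, this⟩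
      omega
  · -- goodness of b0
    have ha0N : a0 ∈ C.N b0 := (C.mem a0 b0).2 hb0
    have hc : ((C.N b0).erase a0).card = 2 := by
      rw [Finset.card_erase_of_mem ha0N, C.cN]
    obtain ⟨a1, a2, ha12, he⟩ := Finset.card_eq_two.1 hc
    have hea1 : a1 ∈ (C.N b0).erase a0 := by rw [he]; simp
    have hea2 : a2 ∈ (C.N b0).erase a0 := by rw [he]; simp
    refine ⟨a0, a1, a2, (Finset.mem_erase.1 hea1).1.symm, (Finset.mem_erase.1 hea2).1.symm, ha12, ?_, ?_⟩
    · show C.N b0 = {a0, a1, a2}
      rw [← Finset.insert_erase ha0N, he]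
    · intro Y hY w0 hw0 w1 hw1 hne hw0' hw1' hbad
      have hw0M : w0 ∈ C.M a0 := hw0
      -- Y is tight in the swapped structure
      have hY2 : 2 ≤ Y.card := by
        have : ({w0, w1} : Finset β) ⊆ Y := by
          intro c hc
          simp only [Finset.mem_insert, Finset.mem_singleton] at hc
          rcases hc with rfl | rfl
          · exact hw0'
          · exact hw1'
        have h1 := Finset.card_le_card this
        rw [Finset.card_pair hne] at h1
        exact h1
      obtain ⟨h1, h2⟩ := C.swap.compl_tight Y hbad hY2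
      -- Z'' is the complement
      set Z' : Finset α := univ \ C.swap.R Y with hZ'def
      have h1' : (C.R Z').card + 1 = Z'.card := h1
      have h2' : C.R Z' = univ \ Y := h2
      have hb0Z' : b0 ∈ C.R Z' := by rw [h2']; simp [hY]
      have hsubI : C.N b0 ⊆ Z ∩ Z' := Finset.subset_inter hb0R ((C.mem_R Z' b0).1 hb0Z')
      have hi3 : 3 ≤ (Z ∩ Z').card := by
        have := Finset.card_le_card hsubI
        rw [C.cN] at this
        exact this
      have hw0Z : w0 ∈ C.R Z := ha0R hw0M
      have hw0Z' : w0 ∉ C.R Z' := by rw [h2']; simp [hw0']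
      have hneZ : Z ∩ Z' ≠ Z := by
        intro h
        apply hw0Z'
        have : w0 ∈ C.R (Z ∩ Z') := by rw [h]; exact hw0Z
        rw [C.R_inter] at this
        exact (Finset.mem_inter.1 this).2
      have hlt : (Z ∩ Z').card < Z.card := by
        apply Finset.card_lt_card
        exact ⟨Finset.inter_subset_left, fun h => hneZ (Finset.Subset.antisymm Finset.inter_subset_left h)⟩
      by_cases hu : Z ∪ Z' = univ
      · have h3 : C.swap.R Y ⊆ Z \ (Z ∩ Z') := by
          intro c hc
          have hcZ' : c ∉ Z' := by rw [hZ'def]; simp [hc]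
          have : c ∈ Z ∪ Z' := hu ▸ Finset.mem_univ c
          have hcZ := (Finset.mem_union.1 this).resolve_right hcZ'
          simp [hcZ, hcZ']
        have h4 := Finset.card_le_card h3
        rw [Finset.card_sdiff_of_subset Finset.inter_subset_left] at h4
        have h5 := hmin' Y ⟨hY2, hbad⟩
        omega
      · have hiu : Z ∩ Z' ≠ univ := by
          intro h
          rw [h, Finset.card_univ] at hlt
          exact absurd (Finset.card_le_univ Z) (by omega)
        have := C.uncross Z Z' hZt h1' ⟨a0, hsubI ha0N⟩ hu hiu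
        have := hmin _ ⟨by omega, this⟩
        omega

/-- There is always a good edge when the hypergraph is not 2-colourable. -/
lemma good_edge (C : Conf α β) (hne : Nonempty α) (hnc : ¬ C.Two) (hnc' : ¬ C.swap.Two) :
    ∃ a0 b0, b0 ∈ C.M a0 ∧ C.Good a0 ∧ C.swap.Good b0 := by
  classical
  by_cases hT : ∃ m : ℕ, (∃ Z, C.Tight Z ∧ Z.card = m) ∨ (∃ Y, C.swap.Tight Y ∧ Y.card = m)
  · have hm := Nat.find_spec hT
    have hmin := fun k => Nat.find_min' hT (m := k)
    set m := Nat.find hT with hmdef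
    rcases hm with ⟨Z, hZ, hZm⟩ | ⟨Y, hY, hYm⟩
    · exact C.good_edge_of_min hnc Z hZ
        (fun Z' hZ' => hZm ▸ hmin _ (Or.inl ⟨Z', hZ', rfl⟩))
        (fun Y' hY' => hZm ▸ hmin _ (Or.inr ⟨Y', hY', rfl⟩))
    · obtain ⟨b0, a0, h1, h2, h3⟩ := C.swap.good_edge_of_min hnc' Y hY
        (fun Y' hY' => hYm ▸ hmin _ (Or.inr ⟨Y', hY', rfl⟩))
        (fun Z' hZ' => hYm ▸ hmin _ (Or.inl ⟨Z', hZ', rfl⟩))
      exact ⟨a0, b0, (C.mem a0 b0).1 h1, h3, h2⟩
  · push Not at hT
    have hgood : ∀ a0, C.Good a0 := by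
      intro a0
      obtain ⟨b0, b1, b2, h01, h02, h12, hM⟩ := Finset.card_eq_three.1 (C.cM a0)
      refine ⟨b0, b1, b2, h01, h02, h12, hM, ?_⟩
      intro Z' hZ' u0 hu0 u1 hu1 hne hu0' hu1' hbad
      have hi2 : 2 ≤ Z'.card := by
        have : ({u0, u1} : Finset α) ⊆ Z' := by
          intro c hc
          simp only [Finset.mem_insert, Finset.mem_singleton] at hc
          rcases hc with rfl | rfl
          · exact hu0'
          · exact hu1'
        have h1 := Finset.card_le_card this
        rw [Finset.card_pair hne] at h1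
        exact h1
      exact (hT _).1 Z' ⟨hi2, hbad⟩ rfl
    have hgood' : ∀ b0, C.swap.Good b0 := by
      intro a0
      obtain ⟨b0, b1, b2, h01, h02, h12, hM⟩ := Finset.card_eq_three.1 (C.swap.cM a0)
      refine ⟨b0, b1, b2, h01, h02, h12, hM, ?_⟩
      intro Z' hZ' u0 hu0 u1 hu1 hne hu0' hu1' hbad
      have hi2 : 2 ≤ Z'.card := by
        have : ({u0, u1} : Finset β) ⊆ Z' := by
          intro c hc
          simp only [Finset.mem_insert, Finset.mem_singleton] at hc
          rcases hc with rfl | rfl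
          · exact hu0'
          · exact hu1'
        have h1 := Finset.card_le_card this
        rw [Finset.card_pair hne] at h1
        exact h1
      exact (hT _).2 Z' ⟨hi2, hbad⟩ rfl
    obtain ⟨a0⟩ := hne
    obtain ⟨b0, hb0⟩ : (C.M a0).Nonempty := by rw [← Finset.card_pos, C.cM]; norm_num
    exact ⟨a0, b0, hb0, hgood a0, hgood' b0⟩


lemma image_bic {γ : Type} (S : Finset γ) (s : γ → ℝ) (f : γ → Fin 4)
    (p q : Fin 4) (hpq : p ≠ q) (hf : ∀ a ∈ S, f a = if 0 < s a then p else q)
    (hpos : ∃ a ∈ S, 0 < s a) (hneg : ∃ a ∈ S, s a < 0) : (S.image f).card = 2 := by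
  have : S.image f = {p, q} := by
    apply Finset.Subset.antisymm
    · intro c hc
      obtain ⟨a, ha, rfl⟩ := Finset.mem_image.1 hc
      rw [hf a ha]
      split_ifs <;> simp
    · intro c hc
      simp only [Finset.mem_insert, Finset.mem_singleton] at hc
      obtain ⟨a, ha, ha'⟩ := hpos
      obtain ⟨b, hb, hb'⟩ := hneg
      rcases hc with rfl | rfl
      · exact Finset.mem_image.2 ⟨a, ha, by rw [hf a ha]; simp [ha']⟩
      · exact Finset.mem_image.2 ⟨b, hb, by rw [hf b hb]; simp [not_lt.2 hb'.le]⟩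
  rw [this, Finset.card_pair hpq]

lemma image_star {γ : Type} [DecidableEq γ] (S : Finset γ) (f : γ → Fin 4) (a0 : γ) (ha0 : a0 ∈ S)
    (hc : S.card = 3) (p q : Fin 4) (hpq : p ≠ q) (hp : f a0 = p)
    (hq : ∀ a ∈ S, a ≠ a0 → f a = q) : (S.image f).card = 2 := by
  have hne : (S.erase a0).Nonempty := by
    rw [← Finset.card_pos, Finset.card_erase_of_mem ha0, hc]; norm_num
  obtain ⟨a1, ha1⟩ := hne
  obtain ⟨h1, h2⟩ := Finset.mem_erase.1 ha1
  have : S.image f = {p, q} := by
    apply Finset.Subset.antisymm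
    · intro c hc
      obtain ⟨a, ha, rfl⟩ := Finset.mem_image.1 hc
      by_cases h : a = a0
      · rw [h, hp]; simp
      · rw [hq a ha h]; simp
    · intro c hc
      simp only [Finset.mem_insert, Finset.mem_singleton] at hc
      rcases hc with rfl | rfl
      · exact Finset.mem_image.2 ⟨a0, ha0, hp⟩
      · exact Finset.mem_image.2 ⟨a1, h2, hq a1 h2 h1⟩
  rw [this, Finset.card_pair hpq]

/-- The colouring theorem for configurations. -/
theorem colour (C : Conf α β) (hne : Nonempty α) :
    ∃ (f : α → Fin 4) (g : β → Fin 4), (∀ a b, b ∈ C.M a → f a ≠ g b) ∧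
      (∀ b, ((C.N b).image f).card = 2) ∧ (∀ a, ((C.M a).image g).card = 2) := by
  classical
  have hneβ : Nonempty β := by
    rw [← Fintype.card_pos_iff, ← C.card_eq, Fintype.card_pos_iff]; exact hne
  by_cases hboth : C.Two ∧ C.swap.Two
  · obtain ⟨⟨s, hs0, hs⟩, ⟨t, ht0, ht⟩⟩ := hboth
    refine ⟨fun a => if 0 < s a then 0 else 1, fun b => if 0 < t b then 2 else 3, ?_, ?_, ?_⟩
    · intro a b _
      dsimp only
      split_ifs <;> decide
    · intro b
      exact image_bic (C.N b) s _ 0 1 (by decide) (fun a _ => rfl) (hs b).1 (hs b).2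
    · intro a
      exact image_bic (C.M a) t _ 2 3 (by decide) (fun a _ => rfl) (ht a).1 (ht a).2
  · have hnc : ¬ C.Two := fun h => hboth ⟨h, C.two_swap h hne⟩
    have hnc' : ¬ C.swap.Two := fun h => hboth ⟨C.swap.two_swap h hneβ, h⟩
    obtain ⟨a0, b0, hb0, ⟨p0, p1, p2, h01, h02, h12, hM, hbad⟩, ⟨q0, q1, q2, k01, k02, k12, kM, kbad⟩⟩ :=
      C.good_edge hne hnc hnc'
    obtain ⟨φ, hφ0, hφ1, hφ2⟩ := C.agood hnc a0 p0 p1 p2 h01 h02 h12 hM hbad
    obtain ⟨ψ, hψ0, hψ1, hψ2⟩ := C.swap.agood hnc' b0 q0 q1 q2 k01 k02 k12 kM kbad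
    have ha0 : a0 ∈ C.N b0 := (C.mem a0 b0).2 hb0
    -- colour of a0 and b0
    obtain ⟨ca, hca, hca'⟩ : ∃ ca : Fin 4, (ca = 2 ∨ ca = 3) ∧
        ∀ b ∈ C.M a0, b ≠ b0 → (if 0 < ψ b then (2 : Fin 4) else 3) = (if ca = 2 then 3 else 2) := by
      rcases hψ2 a0 ha0 with h | h
      · refine ⟨3, Or.inr rfl, ?_⟩
        intro b hb hbb
        have := h b hb hbb
        simp [this]
      · refine ⟨2, Or.inl rfl, ?_⟩
        intro b hb hbb
        have := h b hb hbb
        simp [not_lt.2 this.le]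
    obtain ⟨cb, hcb, hcb'⟩ : ∃ cb : Fin 4, (cb = 0 ∨ cb = 1) ∧
        ∀ a ∈ C.N b0, a ≠ a0 → (if 0 < φ a then (0 : Fin 4) else 1) = (if cb = 0 then 1 else 0) := by
      rcases hφ2 b0 hb0 with h | h
      · refine ⟨1, Or.inr rfl, ?_⟩
        intro a ha haa
        have := h a ha haa
        simp [this]
      · refine ⟨0, Or.inl rfl, ?_⟩
        intro a ha haa
        have := h a ha haa
        simp [not_lt.2 this.le]
    let f : α → Fin 4 := fun a => if a = a0 then ca else if 0 < φ a then 0 else 1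
    let g : β → Fin 4 := fun b => if b = b0 then cb else if 0 < ψ b then 2 else 3
    have hf0 : f a0 = ca := by simp [f]
    have hg0 : g b0 = cb := by simp [g]
    have hf : ∀ a, a ≠ a0 → f a = if 0 < φ a then 0 else 1 := by
      intro a ha; simp [f, ha]
    have hg : ∀ b, b ≠ b0 → g b = if 0 < ψ b then 2 else 3 := by
      intro b hb; simp [g, hb]
    refine ⟨f, g, ?_, ?_, ?_⟩
    · intro a b hab
      by_cases h1 : a = a0
      · subst h1
        by_cases h2 : b = b0
        · subst h2
          rw [hf0, hg0]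
          rcases hca with rfl | rfl <;> rcases hcb with rfl | rfl <;> decide
        · rw [hf0, hg b h2, hca' b hab h2]
          rcases hca with rfl | rfl <;> decide
      · by_cases h2 : b = b0
        · subst h2
          rw [hf a h1, hg0, hcb' a ((C.mem a b).2 hab) h1]
          rcases hcb with rfl | rfl <;> decide
        · rw [hf a h1, hg b h2]
          split_ifs <;> decide
    · intro b
      by_cases hb : b ∈ C.M a0
      · rcases hφ2 b hb with h | h
        · apply image_star (C.N b) f a0 ((C.mem a0 b).2 hb) (C.cN b) ca 0 ?_ hf0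
          · intro a ha haa
            rw [hf a haa]; simp [h a ha haa]
          · rcases hca with rfl | rfl <;> decide
        · apply image_star (C.N b) f a0 ((C.mem a0 b).2 hb) (C.cN b) ca 1 ?_ hf0
          · intro a ha haa
            rw [hf a haa]; simp [not_lt.2 (h a ha haa).le]
          · rcases hca with rfl | rfl <;> decide
      · have hna : a0 ∉ C.N b := fun h => hb ((C.mem a0 b).1 h)
        apply image_bic (C.N b) φ f 0 1 (by decide) ?_ (hφ1 b hb).1 (hφ1 b hb).2
        intro a ha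
        exact hf a (fun h => hna (h ▸ ha))
    · intro a
      by_cases ha : a ∈ C.N b0
      · rcases hψ2 a ha with h | h
        · apply image_star (C.M a) g b0 ((C.mem a b0).1 ha) (C.cM a) cb 2 ?_ hg0
          · intro b hb hbb
            rw [hg b hbb]; simp [h b hb hbb]
          · rcases hcb with rfl | rfl <;> decide
        · apply image_star (C.M a) g b0 ((C.mem a b0).1 ha) (C.cM a) cb 3 ?_ hg0
          · intro b hb hbb
            rw [hg b hbb]; simp [not_lt.2 (h b hb hbb).le]
          · rcases hcb with rfl | rfl <;> decide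
      · have hnb : b0 ∉ C.M a := fun h => ha ((C.mem a b0).2 h)
        apply image_bic (C.M a) ψ g 2 3 (by decide) ?_ (hψ1 a ha).1 (hψ1 a ha).2
        intro b hb
        exact hg b (fun h => hnb (h ▸ hb))

end Conf

section Graph

variable {V : Type} [Fintype V] (G : SimpleGraph V) [DecidableRel G.Adj]

/-- colouring one component -/
lemma comp_col (h3 : G.IsRegularOfDegree 3) (σ : V → Fin 2)
    (hσ : ∀ u v, G.Adj u v → σ u ≠ σ v) (K : G.ConnectedComponent) :
    ∃ c : V → Fin 4, (∀ u v, G.connectedComponentMk u = K → G.Adj u v → c u ≠ c v) ∧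
      ∀ v, G.connectedComponentMk v = K → ((G.neighborFinset v).image c).card = 2 := by
  classical
  have hadj : ∀ u v, G.Adj u v → G.connectedComponentMk u = G.connectedComponentMk v := by
    intro u v h
    exact SimpleGraph.ConnectedComponent.sound h.reachable
  let P : V → Prop := fun v => G.connectedComponentMk v = K ∧ σ v = 0
  let Q : V → Prop := fun v => G.connectedComponentMk v = K ∧ σ v = 1
  have hPQ : ∀ u v, P u → G.Adj u v → Q v := by
    intro u v hu h
    refine ⟨(hadj u v h).symm.trans hu.1, ?_⟩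
    have h1 := hσ u v h
    rw [hu.2] at h1
    omega
  have hQP : ∀ u v, Q u → G.Adj u v → P v := by
    intro u v hu h
    refine ⟨(hadj u v h).symm.trans hu.1, ?_⟩
    have h1 := hσ u v h
    rw [hu.2] at h1
    omega
  have hPorQ : ∀ v, G.connectedComponentMk v = K → P v ∨ Q v := by
    intro v hv
    have : σ v = 0 ∨ σ v = 1 := by omega
    rcases this with h | h
    · left; exact ⟨hv, h⟩
    · right; exact ⟨hv, h⟩
  have hnPQ : ∀ v, P v → ¬ Q v := by
    intro v h1 h2
    have := h1.2.symm.trans h2.2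
    exact absurd this (by decide)
  let C : Conf {v // P v} {v // Q v} :=
    { N := fun b => Finset.univ.filter (fun a => G.Adj a.1 b.1)
      M := fun a => Finset.univ.filter (fun b => G.Adj a.1 b.1)
      mem := by intro a b; simp
      cN := by
        intro b
        rw [← h3 b.1, ← G.card_neighborFinset_eq_degree,
          ← Finset.card_map (Function.Embedding.subtype _)]
        congr 1
        ext v
        simp only [Finset.mem_map, Finset.mem_filter, Finset.mem_univ, true_and,
          Function.Embedding.coe_subtype, SimpleGraph.mem_neighborFinset]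
        constructor
        · rintro ⟨a, ha, rfl⟩; exact ha.symm
        · intro h; exact ⟨⟨v, hQP b.1 v b.2 h⟩, h.symm, rfl⟩
      cM := by
        intro a
        rw [← h3 a.1, ← G.card_neighborFinset_eq_degree,
          ← Finset.card_map (Function.Embedding.subtype _)]
        congr 1
        ext v
        simp only [Finset.mem_map, Finset.mem_filter, Finset.mem_univ, true_and,
          Function.Embedding.coe_subtype, SimpleGraph.mem_neighborFinset]
        constructor
        · rintro ⟨b, hb, rfl⟩; exact hb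
        · intro h; exact ⟨⟨v, hPQ a.1 v a.2 h⟩, h, rfl⟩
      conn := by
        intro Z Y h1 h2
        by_cases hZ : Z = ∅
        · left; exact hZ
        · right
          obtain ⟨a, ha⟩ := Finset.nonempty_iff_ne_empty.2 hZ
          let S : V → Prop := fun v => (∃ h : P v, (⟨v, h⟩ : {v // P v}) ∈ Z) ∨
            (∃ h : Q v, (⟨v, h⟩ : {v // Q v}) ∈ Y)
          have hS : ∀ u v, S u → G.Adj u v → S v := by
            intro u v hu huv
            rcases hu with ⟨h, hu⟩ | ⟨h, hu⟩
            · right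
              refine ⟨hPQ u v h huv, ?_⟩
              apply h2 _ hu
              simp [huv]
            · left
              refine ⟨hQP u v h huv, ?_⟩
              apply h1 _ hu
              simp [huv.symm]
          have hreach : ∀ u v, G.Walk u v → S u → S v := by
            intro u v p
            induction p with
            | nil => exact id
            | cons h p ih => intro hu; exact ih (hS _ _ hu h)
          apply Finset.eq_univ_of_forall
          intro a'
          have hr : G.Reachable a.1 a'.1 :=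
            SimpleGraph.ConnectedComponent.exact (a.2.1.trans a'.2.1.symm)
          obtain ⟨p⟩ := hr
          rcases hreach _ _ p (Or.inl ⟨a.2, ha⟩) with ⟨h, h'⟩ | ⟨h, h'⟩
          · exact h'
          · exact absurd h (hnPQ _ a'.2) }
  have hCN : ∀ (b : {v // Q v}) (a : {v // P v}), a ∈ C.N b ↔ G.Adj a.1 b.1 := by
    intro b a; simp [C]
  have hCM : ∀ (b : {v // Q v}) (a : {v // P v}), b ∈ C.M a ↔ G.Adj a.1 b.1 := by
    intro b a; simp [C]
  have hne : Nonempty {v // P v} := by
    obtain ⟨v, hv⟩ := K.exists_rep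
    rcases hPorQ v hv with h | h
    · exact ⟨⟨v, h⟩⟩
    · have hd : 0 < (G.neighborFinset v).card := by
        rw [G.card_neighborFinset_eq_degree, h3 v]; norm_num
      obtain ⟨u, hu⟩ := Finset.card_pos.1 hd
      rw [SimpleGraph.mem_neighborFinset] at hu
      exact ⟨⟨u, hQP v u h hu⟩⟩
  obtain ⟨f, g, hfg, hf, hg⟩ := C.colour hne
  let c : V → Fin 4 := fun v => if h : P v then f ⟨v, h⟩ else if h : Q v then g ⟨v, h⟩ else 0
  have hcP : ∀ v (h : P v), c v = f ⟨v, h⟩ := by intro v h; simp [c, h]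
  have hcQ : ∀ v (h : Q v), c v = g ⟨v, h⟩ := by
    intro v h
    have : ¬ P v := fun h' => hnPQ v h' h
    simp [c, h, this]
  refine ⟨c, ?_, ?_⟩
  · intro u v hu huv
    rcases hPorQ u hu with h | h
    · have hv := hPQ u v h huv
      rw [hcP u h, hcQ v hv]
      exact hfg _ _ ((hCM _ _).2 huv)
    · have hv := hQP u v h huv
      rw [hcQ u h, hcP v hv]
      exact (hfg _ _ ((hCM _ _).2 huv.symm)).symm
  · intro v hv
    rcases hPorQ v hv with h | h
    · rw [← hg ⟨v, h⟩]
      congr 1
      ext k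
      simp only [Finset.mem_image, SimpleGraph.mem_neighborFinset]
      constructor
      · rintro ⟨u, hu, rfl⟩
        exact ⟨⟨u, hPQ v u h hu⟩, (hCM _ _).2 hu, (hcQ u _).symm⟩
      · rintro ⟨u, hu, rfl⟩
        exact ⟨u.1, (hCM _ _).1 hu, hcQ u.1 u.2⟩
    · rw [← hf ⟨v, h⟩]
      congr 1
      ext k
      simp only [Finset.mem_image, SimpleGraph.mem_neighborFinset]
      constructor
      · rintro ⟨u, hu, rfl⟩
        exact ⟨⟨u, hQP v u h hu⟩, (hCN _ _).2 hu.symm, (hcP u _).symm⟩
      · rintro ⟨u, hu, rfl⟩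
        exact ⟨u.1, ((hCN _ _).1 hu).symm, hcP u.1 u.2⟩

end Graph

/-- Every finite 3-regular bipartite simple graph has a 2-homogeneous colouring with at most four
colours. -/
theorem result : ∀ (V : Type) [Fintype V] (G : SimpleGraph V) [DecidableRel G.Adj],
    G.IsRegularOfDegree 3 → G.IsBipartite →
    ∃ c : V → Fin 4, (∀ u v : V, G.Adj u v → c u ≠ c v) ∧
      ∀ v : V, ((G.neighborFinset v).image c).card = 2 := by
  intro V _ G _ h3 hbip
  classical
  obtain ⟨σ⟩ := hbip
  have hσ : ∀ u v, G.Adj u v → σ u ≠ σ v := fun u v h => σ.valid h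
  choose c hc1 hc2 using comp_col G h3 σ hσ
  have hadj : ∀ u v, G.Adj u v → G.connectedComponentMk u = G.connectedComponentMk v := by
    intro u v h
    exact SimpleGraph.ConnectedComponent.sound h.reachable
  refine ⟨fun v => c (G.connectedComponentMk v) v, ?_, ?_⟩
  · intro u v huv
    dsimp only
    rw [← hadj u v huv]
    exact hc1 _ u v rfl huv
  · intro v
    rw [← hc2 _ v rfl]
    congr 1
    apply Finset.image_congr
    intro u hu
    have : G.Adj v u := by simpa using hu
    dsimp only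
    rw [hadj v u this]

end Pool.Agent.Results.MP_7e4769_co.BipartiteFour
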